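import Pool.Graph.R_pool_sql_team_39128cda.H.MP_3d11e1_an.D

/-!
# Fourier coefficients of functions of finite smoothness on the torus

The lemmas of the library module `H.MP_3d11e1_an.B`, with the number of derivatives tracked.
-/

set_option autoImplicit false
open Finset UnitAddTorus MeasureTheory Complex Real
open scoped ContDiff

namespace Pool.Agent.KS6_11.FinSm

open Pool.Agent.H.MP_3d11e1_an

variable {d : ℕ}

/-- `ψ` is of class `C^N`. -/
def SmN (N : ℕ) (ψ : UnitAddTorus (Fin d) → ℂ) : Prop := ContDiff ℝ N (ψ ∘ pr)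

lemma SmN.mono {N M : ℕ} {ψ : UnitAddTorus (Fin d) → ℂ} (h : SmN N ψ) (hMN : M ≤ N) : SmN M ψ :=
  ContDiff.of_le h (by exact_mod_cast hMN)

lemma SmN.cont {N : ℕ} {ψ : UnitAddTorus (Fin d) → ℂ} (h : SmN N ψ) : Continuous ψ :=
  pr_q.continuous_comp_iff.1 h.continuous

lemma SmN.neg {N : ℕ} {ψ : UnitAddTorus (Fin d) → ℂ} (h : SmN N ψ) : SmN N (fun z => -ψ z) :=
  ContDiff.neg h

lemma derN {N : ℕ} {ψ : UnitAddTorus (Fin d) → ℂ} (h : SmN (N + 1) ψ) (i : Fin d) (y : Fin d → ℝ) (s : ℝ) :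
    HasDerivAt (fun s : ℝ => ψ (pr y + pr (Pi.single i s)))
      (fderiv ℝ (ψ ∘ pr) (y + Pi.single i s) (Pi.single i 1)) s := by
  have h1 : HasDerivAt (fun s : ℝ => y + Pi.single i s) (Pi.single i 1 : Fin d → ℝ) s := by
    simpa using ((ContinuousLinearMap.single ℝ (fun _ : Fin d => ℝ) i).hasDerivAt (x := s)).const_add y
  simpa [Function.comp_def, pr_add] using
    (h.differentiable (by simp) _).hasFDerivAt.comp_hasDerivAt s h1

lemma D_prN {N : ℕ} {ψ : UnitAddTorus (Fin d) → ℂ} (h : SmN (N + 1) ψ) (i : Fin d) (y : Fin d → ℝ) :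
    D i ψ (pr y) = fderiv ℝ (ψ ∘ pr) y (Pi.single i 1) := by
  simpa [D] using (derN h i y 0).deriv

lemma SmN.D {N : ℕ} {ψ : UnitAddTorus (Fin d) → ℂ} (h : SmN (N + 1) ψ) (i : Fin d) : SmN N (D i ψ) := by
  rw [SmN, show Pool.Agent.H.MP_3d11e1_an.D i ψ ∘ pr = fun y => fderiv ℝ (ψ ∘ pr) y (Pi.single i 1) from
    funext (D_prN h i)]
  exact (h.fderiv_right (m := N) (by exact_mod_cast le_rfl)).clm_apply contDiff_const

lemma co_DN {N : ℕ} {ψ : UnitAddTorus (Fin d) → ℂ} (h : SmN (N + 1) ψ) (i : Fin d) (k : Fin d → ℤ) :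
    mFourierCoeff (D i ψ) k = 2 * π * I * k i * mFourierCoeff ψ k := by
  have c1 := h.cont
  have c2 := (h.D i).cont
  obtain ⟨M, hM⟩ := isCompact_univ.exists_bound_of_continuousOn c2.continuousOn
  have a := (hasDerivAt_integral_of_dominated_loc_of_deriv_le (μ := μ d) (x₀ := (0 : ℝ))
    (s := Set.univ) (F := fun s t => mFourier (-k) t * ψ (t + pr (Pi.single i s)))
    (F' := fun s t => mFourier (-k) t * D i ψ (t + pr (Pi.single i s))) (bound := fun _ => M)
    Filter.univ_mem (.of_forall fun s => Continuous.aestronglyMeasurable (by fun_prop))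
    (Continuous.integrable_of_hasCompactSupport (by fun_prop) (HasCompactSupport.of_compactSpace _))
    (Continuous.aestronglyMeasurable (by fun_prop))
    (.of_forall fun t s _ => by rw [norm_mul, mf_norm, one_mul]; exact hM _ trivial)
    (integrable_const _) (.of_forall fun t s _ => by
      obtain ⟨y, rfl⟩ := pr_q.surjective t
      rw [← pr_add, D_prN h]
      exact (derN h i y s).const_mul _)).2
  have e : (fun s : ℝ => ∫ t, mFourier (-k) t * ψ (t + pr (Pi.single i s)) ∂μ d) =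
      fun s : ℝ => cexp (2 * π * I * k i * s) * mFourierCoeff ψ k := by
    ext s
    rw [co_def, ← integral_const_mul, ← integral_add_right_eq_self
      (fun t => cexp (2 * π * I * k i * s) * (mFourier (-k) t * ψ t)) (pr (Pi.single i s))]
    congr 1; ext t
    rw [mf_add, mf_single, Pi.neg_apply, Int.cast_neg, show 2 * π * I * -(k i : ℂ) * s =
      -(2 * π * I * k i * s) by ring, Complex.exp_neg]
    field_simp
  rw [e] at a
  have b := ((((hasDerivAt_id' (0 : ℝ)).ofReal_comp).const_mul (2 * π * I * k i)).cexp).mul_const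
    (mFourierCoeff ψ k)
  have := a.unique b
  have z : pr (0 : Fin d → ℝ) = 0 := rfl
  simpa [z, ← co_def] using this

lemma decayN (N : ℕ) (i : Fin d) : ∀ {ψ : UnitAddTorus (Fin d) → ℂ}, SmN N ψ →
    ∃ C, ∀ k, |(k i : ℝ)| ^ N * ‖mFourierCoeff ψ k‖ ≤ C := by
  induction N with
  | zero =>
    refine fun {ψ} h => ⟨∫ t, ‖ψ t‖ ∂μ d, fun k => ?_⟩
    rw [pow_zero, one_mul, co_def]
    exact (norm_integral_le_integral_norm _).trans_eq (by simp [mf_norm])
  | succ N ih =>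
    intro ψ h
    obtain ⟨C, hC⟩ := ih (h.D i)
    refine ⟨C, fun k => le_trans ?_ (hC k)⟩
    rw [co_DN h, pow_succ, mul_assoc]
    gcongr
    simp only [norm_mul, Complex.norm_ofNat, norm_real, norm_I, Complex.norm_intCast, Real.norm_eq_abs,
      abs_of_pos pi_pos]
    gcongr
    nlinarith [pi_gt_three, abs_nonneg (k i : ℝ)]

lemma tailN {ψ : UnitAddTorus (Fin d) → ℂ} (K : ℕ) (h : SmN (2 * d + K) ψ) : ∃ C, 0 ≤ C ∧ ∀ (F : ℕ) (k : Fin d → ℤ),
    (∃ i, (F : ℤ) < |k i|) → ((F : ℝ) + 1) ^ K * ‖mFourierCoeff ψ k‖ ≤ C * wt k := by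
  choose C hC using fun i => decayN (2 * d + K) i h
  have C0 : ∀ i, 0 ≤ C i := fun i => le_trans (by positivity) (hC i 0)
  refine ⟨2 ^ d * ∑ i, C i, mul_nonneg (by positivity) (sum_nonneg fun i _ => C0 i),
    fun F k ⟨j, hj⟩ => ?_⟩
  obtain ⟨i, -, hi⟩ := exists_max_image univ (fun i => |(k i : ℝ)|) ⟨j, mem_univ _⟩
  have h1 : (F : ℝ) + 1 ≤ |(k i : ℝ)| := le_trans (by exact_mod_cast hj) (hi j (mem_univ _))
  have h2 : 1 ≤ |(k i : ℝ)| := le_trans (by simp) h1
  have h3 : 1 ≤ 2 ^ d * |(k i : ℝ)| ^ (2 * d) * wt k := by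
    rw [pow_mul, ← mul_pow, ← Fin.prod_const, wt, ← prod_mul_distrib]
    refine le_trans (by simp) (prod_le_prod (f := fun _ => 1) (by simp) fun l _ => ?_)
    rw [mul_one_div, le_div_iff₀ (by positivity)]
    have := hi l (mem_univ _)
    nlinarith [sq_abs (k l : ℝ), abs_nonneg (k l : ℝ)]
  have := wt_pos k
  calc _ ≤ |(k i : ℝ)| ^ K * ‖mFourierCoeff ψ k‖ * 1 := by rw [mul_one]; gcongr
    _ ≤ |(k i : ℝ)| ^ K * ‖mFourierCoeff ψ k‖ * (2 ^ d * |(k i : ℝ)| ^ (2 * d) * wt k) := by gcongr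
    _ = 2 ^ d * (|(k i : ℝ)| ^ (2 * d + K) * ‖mFourierCoeff ψ k‖) * wt k := by ring
    _ ≤ _ := by
      gcongr
      exact (hC i k).trans (single_le_sum (fun i _ => C0 i) (mem_univ i))

lemma sumsN {ψ : UnitAddTorus (Fin d) → ℂ} (h : SmN (2 * d) ψ) : Summable fun k => ‖mFourierCoeff ψ k‖ := by
  obtain ⟨C, -, hC⟩ := tailN 0 h
  refine .of_norm_bounded_eventually (wt_sum.mul_left C) ?_
  filter_upwards [Filter.eventually_cofinite_ne 0] with k hk
  obtain ⟨i, hi⟩ := Function.ne_iff.1 hk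
  simpa using hC 0 k ⟨i, by simpa using hi⟩

lemma approxN {ψ : UnitAddTorus (Fin d) → ℂ} (K : ℕ) (h : SmN (2 * d + K) ψ) : ∃ C, ∀ (F : ℕ) z,
    |(ψ z).re - (∑ k ∈ box d F, mFourierCoeff ψ k * mFourier k z).re| ≤ C / ((F : ℝ) + 1) ^ K := by
  obtain ⟨C, C0, hC⟩ := tailN K h
  refine ⟨C * ∑' k : Fin d → ℤ, wt k, fun F z => ?_⟩
  have s := hasSum_mFourier_series_apply_of_summable (f := ⟨ψ, h.cont⟩) (sumsN (h.mono (by omega))).of_norm z
  simp only [ContinuousMap.coe_mk, smul_eq_mul] at s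
  rw [← sub_re, ← s.tsum_eq, ← s.summable.sum_add_tsum_compl (s := box d F), add_sub_cancel_left]
  refine (abs_re_le_norm _).trans ((tsum_of_norm_bounded
    (((wt_sum.subtype _).hasSum).mul_left (C / ((F : ℝ) + 1) ^ K)) fun k => ?_).trans ?_)
  · rw [norm_mul, mf_norm, mul_one, div_mul_eq_mul_div, le_div_iff₀' (by positivity)]
    exact hC F k (by simpa using mt mem_box.2 k.2)
  · rw [mul_div_right_comm]
    gcongr
    exact wt_sum.tsum_subtype_le _ _ fun k => (wt_pos k).le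

end Pool.Agent.KS6_11.FinSm
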