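import Pool.Agent.KS6_11.FinSm.B

/-!
# No escape for the Birkhoff sums of functions of finite smoothness

The lemmas of the library module `H.MP_3d11e1_an.D`, with the number of derivatives tracked.
-/

set_option autoImplicit false
open Finset UnitAddTorus MeasureTheory Complex Real

namespace Pool.Agent.KS6_11.FinSm

open Pool.Agent.H.MP_3d11e1_an

variable {d : ℕ} {ψ : UnitAddTorus (Fin d) → ℂ} {α : UnitAddTorus (Fin d)}

lemma csumN (h : SmN (2 * d) ψ) (Λ : Finset (Fin d → ℤ)) (x : UnitAddTorus (Fin d)) :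
    ∑ k ∈ Λ, ‖mFourierCoeff ψ k * mFourier k x‖ ≤ ∑' k, ‖mFourierCoeff ψ k‖ := by
  simpa [mf_norm] using (sumsN h).sum_le_tsum Λ fun _ _ => norm_nonneg _

lemma noescN (hd : 0 < d) (h : SmN (2 * d + ((d + 1) * (8 * (2 * d) + 11) ^ (d + 1) + 1)) ψ) (hα : ∀ k ≠ 0, mFourier k α ≠ 1)
    (h0 : (mFourierCoeff ψ 0).re = 0) (x : UnitAddTorus (Fin d)) (m₀ : ℕ) :
    ¬ ∀ m, m₀ ≤ m → 1 ≤ ∑ j ∈ range m, (ψ (x + j • α)).re := by
  classical
  intro hg
  obtain ⟨C, hC⟩ := approxN ((d + 1) * (8 * (2 * d) + 11) ^ (d + 1) + 1) h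
  set S := ∑' k, ‖mFourierCoeff ψ k‖
  have S0 : 0 ≤ S := tsum_nonneg fun _ => norm_nonneg _
  obtain ⟨F, hF⟩ := exists_nat_ge (8 + (m₀ + 1) + S + |C| + 8 * d + 2 * (d + 1) ^ (d + 1))
  have d0 : (0 : ℝ) ≤ d := Nat.cast_nonneg d
  have M0 : (0 : ℝ) ≤ m₀ := Nat.cast_nonneg m₀
  have P0 : (0 : ℝ) < (d + 1) ^ (d + 1) := by positivity
  have C0 := abs_nonneg C
  have C1 := le_abs_self C
  set G : ℝ := F + 1 with hG
  have G1 : 1 ≤ G := by linarith
  have G2 : G * G ≤ G ^ (d + 1) := by rw [← sq]; exact pow_le_pow_right₀ G1 (by omega)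
  have G3 : G ≤ G ^ (d + 1) := by nlinarith
  have G0 : 0 < G ^ (d + 1) := by positivity
  have hu1 : ∀ k ∈ (box d F).erase 0, 0 < ‖mFourier k α - 1‖ := fun k hk =>
    norm_pos_iff.2 (sub_ne_zero.2 (hα k (mem_erase.1 hk).1))
  refine chain hd (r := 1 / G ^ (d + 1)) (erase_subset 0 (box d F)) hu1 (by positivity)
    (by rw [div_le_one G0]; linarith) ?_ (main (c := fun k => mFourierCoeff ψ k * mFourier k x)
      (f := fun j => (ψ (x + j • α)).re) (p := 2 * d) (m₀ := m₀)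
      (η := C / G ^ ((d + 1) * (8 * (2 * d) + 11) ^ (d + 1) + 1))
      (fun k _ => mf_norm _ _) hu1 (fun j => ?_) (one_div_le_one_div_of_le (by norm_num)
      (by linarith)) ((csumN (h.mono (by omega)) _ x).trans (by rw [one_div_one_div]; linarith))
      (fun m hm => zero_le_one.trans (hg m hm)) (fun ρ ρ0 ρ1 N => ?_) _ _ _ (m₀ + 1) (by positivity)
      le_rfl ?_ (by omega) (by omega) (fun m hm _ => le_trans ?_ (hg m (by omega))) fun k _ hk => ?_)
  · rw [← hG, mul_pow, mul_assoc, ← mul_assoc, ← pow_succ', pow_succ G, mul_one_div,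
      ← div_div, div_self (by positivity), mul_one_div, div_lt_iff₀ (by positivity)]
    linarith
  · have := hC F (x + j • α)
    rw [← add_sum_erase _ _ (zero_box F), add_re, mFourier_zero] at this
    simpa [h0, mf_add, mf_nsmul, mul_assoc] using this
  · rw [le_div_iff₀ G0] at ρ1
    have ρ2 : ρ ≤ 1 := by nlinarith
    obtain ⟨l, l1, l2, l3⟩ := dirichlet (N • α) (δ := ρ ^ 2) (by positivity) (pow_le_one₀ ρ0.le ρ2)
    refine ⟨l, l1, by rwa [pow_mul], fun k hk => ?_⟩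
    rw [← mf_nsmul, mul_nsmul']
    refine (mf_lip (mem_erase.1 hk).2 _).trans ?_
    calc _ ≤ d * (G * (2 * 4 * ρ ^ 2)) := by
          gcongr
          · linarith
          · exact pi_le_four
      _ = ρ * (ρ * ((8 * d) * G)) := by ring
      _ ≤ ρ * (ρ * G ^ (d + 1)) := by gcongr; exact le_trans (by gcongr; linarith) G2
      _ ≤ ρ * 1 := by gcongr
      _ = ρ := mul_one _
  · rw [one_div_pow, ← pow_mul, pow_succ, div_le_div_iff₀ (by positivity) (by positivity), one_mul,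
      mul_comm]
    gcongr; linarith
  · rw [one_div_mul_eq_div, div_le_one G0]; push_cast; linarith
  · exact hk.le.trans (le_mul_of_one_le_right (norm_nonneg _) (by push_cast; linarith))

lemma driftN (h : SmN (2 * d + 1) ψ) (hα : ∀ k ≠ 0, mFourier k α ≠ 1) (h0 : (mFourierCoeff ψ 0).re ≠ 0) :
    ∃ c B : ℝ, 0 < c ∧ ∀ x (n : ℕ), n * c - B ≤ |∑ j ∈ range n, (ψ (x + j • α)).re| := by
  classical
  obtain ⟨C, hC⟩ := approxN 1 h
  have c0 := abs_pos.2 h0
  obtain ⟨F, hF⟩ := exists_nat_ge (2 * C / |(mFourierCoeff ψ 0).re|)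
  refine ⟨|(mFourierCoeff ψ 0).re| / 2, (∑' k, ‖mFourierCoeff ψ k‖) *
    ∑ k ∈ box d F, 2 / ‖mFourier k α - 1‖, by positivity, fun x n => ?_⟩
  have := est (Λ := box d F) (c := fun k => mFourierCoeff ψ k * mFourier k x)
    (u := fun k => mFourier k α) (f := fun j => (ψ (x + j • α)).re)
    (η := |(mFourierCoeff ψ 0).re| / 2) (fun j => le_trans
      (by simpa [mf_add, mf_nsmul, mul_assoc] using hC F (x + j • α) :
        _ ≤ C / ((F : ℝ) + 1)) (by
      rw [div_le_iff₀ c0] at hF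
      rw [div_le_iff₀ (by positivity)]; linarith)) (csumN (h.mono (by omega)) _ x) (· = 0) 0 n
    (B := ∑ k ∈ box d F, 2 / ‖mFourier k α - 1‖) (by positivity)
    (fun k _ hk => by rw [hk, mFourier_zero]; simp; positivity)
    (fun k hk hk' => by
      refine le_trans ?_ (single_le_sum (fun _ _ => by positivity) hk)
      rw [le_div_iff₀ (norm_pos_iff.2 (sub_ne_zero.2 (hα k hk'))), gs (mf_norm _ _)]
      exact (norm_sub_le _ _).trans (by rw [norm_pow, mf_norm]; norm_num))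
  rw [sum_eq_single_of_mem (0 : Fin d → ℤ) (zero_box F) (fun k _ hk => by rw [if_neg hk]),
    if_pos rfl] at this
  simp only [zero_add, mFourier_zero, ContinuousMap.one_apply, mul_one] at this
  have a := abs_sub_abs_le_abs_sub (n * (mFourierCoeff ψ 0).re) (∑ j ∈ range n, (ψ (x + j • α)).re)
  rw [abs_sub_comm, abs_mul, Nat.abs_cast] at a
  linarith

end Pool.Agent.KS6_11.FinSm
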